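import Pool.Agent.V11001.KM.Near

set_option autoImplicit false

/-! A thin grid of natural numbers with cells of length a power of their size, and exceptional numbers in
each cell. -/

namespace Pool.Agent.V1178.PW

open Finset

lemma pow_step (a k : ℕ) (ha : 1 ≤ a) : (a + 1) ^ (k + 1) + a ^ k ≤ a ^ (k + 1) + 2 ^ (k + 1) * a ^ k := by
  induction k with
  | zero => simp
  | succ k ih =>
    have h1 := Nat.mul_le_mul_left (a + 1) ih
    have h2 : a ^ k ≤ a ^ (k + 1) := Nat.pow_le_pow_right ha (by omega)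
    have h3 : 1 ≤ 2 ^ (k + 1) := Nat.one_le_two_pow
    obtain ⟨c, hc⟩ : ∃ c, 2 ^ (k + 1) = 1 + c := ⟨2 ^ (k + 1) - 1, by omega⟩
    have h4 : c * a ^ k ≤ c * a ^ (k + 1) := Nat.mul_le_mul_left c h2
    have e1 : (a + 1) ^ (k + 1 + 1) = (a + 1) * (a + 1) ^ (k + 1) := by ring
    have e2 : a ^ (k + 1 + 1) = a * a ^ (k + 1) := by ring
    have e3 : 2 ^ (k + 1 + 1) = 2 * 2 ^ (k + 1) := by ring
    have e4 : a ^ (k + 1) = a * a ^ k := by ring
    rw [e1, e2, e3]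
    rw [hc] at h1 ⊢
    nlinarith

/-- the cell of a number -/
lemma cell (e : ℕ) (he : 2 ≤ e) (p : ℕ) (hp : 2 ^ e < p) : ∃ a b : ℕ, 2 ≤ a ∧ b + 1 ≤ 2 ^ e * a ^ (e - 2) ∧
    a ^ e + b * a < p ∧ p ≤ a ^ e + (b + 1) * a := by
  classical
  have hex : ∃ c, p ≤ c ^ e := ⟨p, Nat.le_self_pow (by omega) p⟩
  obtain ⟨c, hc, hmin⟩ : ∃ c, p ≤ c ^ e ∧ ∀ d < c, d ^ e < p :=
    ⟨Nat.find hex, Nat.find_spec hex, fun d hd => not_le.1 (Nat.find_min hex hd)⟩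
  have hc3 : 3 ≤ c := by
    by_contra h
    have h1 : c ^ e ≤ 2 ^ e := Nat.pow_le_pow_left (by omega) e
    omega
  obtain ⟨a, rfl⟩ : ∃ a, c = a + 1 := ⟨c - 1, by omega⟩
  have ha := hmin a (Nat.lt_succ_self a)
  have ha0 : 0 < a := by omega
  have h1 := Nat.div_mul_le_self (p - a ^ e - 1) a
  have h2 := Nat.lt_div_mul_add (a := p - a ^ e - 1) ha0
  obtain ⟨b, hb⟩ : ∃ b, b = (p - a ^ e - 1) / a := ⟨_, rfl⟩
  rw [← hb] at h1 h2
  refine ⟨a, b, by omega, ?_, by omega, ?_⟩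
  · obtain ⟨k, rfl⟩ : ∃ k, e = k + 1 + 1 := ⟨e - 2, by omega⟩
    have h3 := pow_step a (k + 1) (by omega)
    have h4 : b * a < 2 ^ (k + 1 + 1) * a ^ k * a := by
      have h5 : 2 ^ (k + 1 + 1) * a ^ k * a = 2 ^ (k + 1 + 1) * a ^ (k + 1) := by ring
      rw [h5]
      omega
    have h6 := Nat.lt_of_mul_lt_mul_right h4
    rw [show k + 1 + 1 - 2 = k by omega]
    exact h6
  · have h3 : (b + 1) * a = b * a + a := by ring
    omega

/-- the grid and the exceptional numbers of the cells -/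
def G (e : ℕ) (S : ℕ → ℕ → Finset ℕ) : Set ℕ := {m | m ≤ 2 ^ e ∨ ∃ a b : ℕ, 2 ≤ a ∧
  b ≤ 2 ^ e * a ^ (e - 2) ∧ (m = a ^ e + b * a ∨ (a ^ e + b * a < m ∧ m ∈ S (a ^ e + b * a) a))}

/-- they are few -/
lemma count {e : ℕ} (he : 2 ≤ e) {S : ℕ → ℕ → Finset ℕ} {c : ℕ} (hS : ∀ N H, (S N H).card ≤ c) :
    ∃ C : ℝ, ∀ X : ℝ, 1 ≤ X → {t : ℕ | t ∈ G e S ∧ (t : ℝ) ≤ X}.Finite ∧
      ({t : ℕ | t ∈ G e S ∧ (t : ℝ) ≤ X}.ncard : ℝ) ≤ C * X ^ (1 - 1 / (e : ℝ)) := by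
  classical
  refine ⟨(2 ^ e + 1 : ℕ) + (4 * 2 ^ e * (c + 1) : ℕ), fun X hX => ?_⟩
  have he0 : (0 : ℝ) < e := by exact_mod_cast (by omega : 0 < e)
  have hX0 : (0 : ℝ) ≤ X := by linarith
  obtain ⟨Y, hY⟩ : ∃ Y : ℝ, Y = X ^ (1 / (e : ℝ)) := ⟨_, rfl⟩
  have hY1 : 1 ≤ Y := by rw [hY]; exact Real.one_le_rpow hX (by positivity)
  have hYe : Y ^ e = X := by
    rw [hY, ← Real.rpow_natCast, ← Real.rpow_mul hX0, one_div, inv_mul_cancel₀ he0.ne', Real.rpow_one]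
  obtain ⟨A, hA⟩ : ∃ A : ℕ, A = ⌊Y⌋₊ := ⟨_, rfl⟩
  have hA1 : 1 ≤ A := by rw [hA]; exact Nat.le_floor (by exact_mod_cast hY1)
  have hAY : (A : ℝ) ≤ Y := by rw [hA]; exact Nat.floor_le (by linarith)
  obtain ⟨F, hF⟩ : ∃ F : Finset ℕ, F = (range (2 ^ e + 1)) ∪
      ((range (A + 1)) ×ˢ (range (2 ^ e * A ^ (e - 2) + 1))).biUnion
        (fun x => {x.1 ^ e + x.2 * x.1} ∪ S (x.1 ^ e + x.2 * x.1) x.1) := ⟨_, rfl⟩
  have hsub : {t : ℕ | t ∈ G e S ∧ (t : ℝ) ≤ X} ⊆ (F : Set ℕ) := by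
    rintro m ⟨hm, hmX⟩
    rw [mem_coe, hF, mem_union]
    rcases hm with hm | ⟨a, b, ha, hb, hab⟩
    · left
      rw [mem_range]
      omega
    · right
      have h1 : a ^ e ≤ m := by rcases hab with h | h <;> omega
      have h2 : (a : ℝ) ≤ Y := by
        by_contra hcon
        push Not at hcon
        have h3 : Y ^ e < (a : ℝ) ^ e := pow_lt_pow_left₀ hcon (by linarith) (by omega)
        have h4 : ((a : ℝ)) ^ e ≤ m := by exact_mod_cast h1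
        linarith
      have h5 : a ≤ A := by rw [hA]; exact Nat.le_floor h2
      have h6 : a ^ (e - 2) ≤ A ^ (e - 2) := Nat.pow_le_pow_left h5 _
      have h7 := Nat.mul_le_mul_left (2 ^ e) h6
      rw [mem_biUnion]
      refine ⟨(a, b), ?_, ?_⟩
      · rw [mem_product, mem_range, mem_range]
        exact ⟨by simp only; omega, by simp only; omega⟩
      · rw [mem_union, mem_singleton]
        rcases hab with h | h
        · exact Or.inl h
        · exact Or.inr h.2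
  refine ⟨(finite_toSet F).subset hsub, ?_⟩
  have h1 := Set.ncard_le_ncard hsub (finite_toSet F)
  rw [Set.ncard_coe_finset] at h1
  have h2 : F.card ≤ (2 ^ e + 1) + (A + 1) * (2 ^ e * A ^ (e - 2) + 1) * (c + 1) := by
    rw [hF]
    refine (card_union_le _ _).trans ?_
    rw [card_range]
    refine Nat.add_le_add_left ?_ _
    refine (card_biUnion_le_card_mul _ _ (c + 1) fun x _ => ?_).trans ?_
    · refine (card_union_le _ _).trans ?_
      rw [card_singleton]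
      have := hS (x.1 ^ e + x.2 * x.1) x.1
      omega
    · rw [card_product, card_range, card_range]
  have h3 : (A + 1) * (2 ^ e * A ^ (e - 2) + 1) * (c + 1) ≤ 4 * 2 ^ e * (c + 1) * A ^ (e - 1) := by
    have h4 : A + 1 ≤ 2 * A := by omega
    have h5 : 2 ^ e * A ^ (e - 2) + 1 ≤ 2 * (2 ^ e * A ^ (e - 2)) := by
      have : 1 ≤ 2 ^ e * A ^ (e - 2) := Nat.one_le_iff_ne_zero.2 (by positivity)
      omega
    have h6 : A ^ (e - 1) = A * A ^ (e - 2) := by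
      rw [show e - 1 = (e - 2) + 1 by omega]
      ring
    calc (A + 1) * (2 ^ e * A ^ (e - 2) + 1) * (c + 1) ≤
        (2 * A) * (2 * (2 ^ e * A ^ (e - 2))) * (c + 1) :=
          Nat.mul_le_mul_right _ (Nat.mul_le_mul h4 h5)
      _ = 4 * 2 ^ e * (c + 1) * A ^ (e - 1) := by rw [h6]; ring
  have h7 : ((A ^ (e - 1) : ℕ) : ℝ) ≤ X ^ (1 - 1 / (e : ℝ)) := by
    calc ((A ^ (e - 1) : ℕ) : ℝ) = (A : ℝ) ^ (e - 1) := by push_cast; ring
      _ ≤ Y ^ (e - 1) := pow_le_pow_left₀ (Nat.cast_nonneg _) hAY _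
      _ = X ^ (1 - 1 / (e : ℝ)) := by
          rw [hY, ← Real.rpow_natCast, ← Real.rpow_mul hX0]
          congr 1
          rw [Nat.cast_sub (by omega), Nat.cast_one]
          field_simp
  have h8 : (1 : ℝ) ≤ X ^ (1 - 1 / (e : ℝ)) := by
    refine Real.one_le_rpow hX ?_
    have : 1 / (e : ℝ) ≤ 1 := by
      rw [div_le_one he0]
      exact_mod_cast (by omega : 1 ≤ e)
    linarith
  have h9 : ({t : ℕ | t ∈ G e S ∧ (t : ℝ) ≤ X}.ncard : ℝ) ≤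
      ((2 ^ e + 1 : ℕ) : ℝ) + ((4 * 2 ^ e * (c + 1) : ℕ) : ℝ) * ((A ^ (e - 1) : ℕ) : ℝ) := by
    have h10 := h1.trans (h2.trans (Nat.add_le_add_left h3 _))
    exact_mod_cast h10
  refine h9.trans ?_
  rw [add_mul]
  refine add_le_add ?_ (mul_le_mul_of_nonneg_left h7 (Nat.cast_nonneg _))
  exact le_mul_of_one_le_right (Nat.cast_nonneg _) h8

/-- numbers near a point, none of `G` near this point: they are in one cell and not exceptional -/
lemma one_cell {e : ℕ} (he : 2 ≤ e) {S : ℕ → ℕ → Finset ℕ} {y r : ℝ}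
    (hG : ∀ t ∈ G e S, r < |(t : ℝ) - y|) {k : ℕ} [Nonempty (Fin k)] (p : Fin k → ℕ)
    (hp : ∀ i, |(p i : ℝ) - y| ≤ r) :
    ∃ a b : ℕ, 2 ≤ a ∧ ∀ i, a ^ e + b * a < p i ∧ p i ≤ a ^ e + b * a + a ∧
      p i ∉ S (a ^ e + b * a) a := by
  have hpG : ∀ i, p i ∉ G e S := fun i h => absurd (hG _ h) (not_lt.2 (hp i))
  obtain ⟨i₀, hi₀⟩ := Finite.exists_min p
  have hbig : 2 ^ e < p i₀ := by
    by_contra h
    exact hpG i₀ (Or.inl (not_lt.1 h))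
  obtain ⟨a, b, ha, hb, h1, h2⟩ := cell e he (p i₀) hbig
  refine ⟨a, b, ha, fun i => ⟨lt_of_lt_of_le h1 (hi₀ i), ?_, fun h => ?_⟩⟩
  · by_contra hcon
    push Not at hcon
    have hm : a ^ e + (b + 1) * a ∈ G e S := Or.inr ⟨a, b + 1, ha, hb, Or.inl rfl⟩
    have h3 := hG _ hm
    have h4 : ((p i₀ : ℕ) : ℝ) ≤ ((a ^ e + (b + 1) * a : ℕ) : ℝ) := by exact_mod_cast h2
    have h5 : ((a ^ e + (b + 1) * a : ℕ) : ℝ) ≤ ((p i : ℕ) : ℝ) := by
      have h6 : a ^ e + (b + 1) * a ≤ p i := by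
        have : (b + 1) * a = b * a + a := by ring
        omega
      exact_mod_cast h6
    have h6 := abs_le.1 (hp i₀)
    have h7 := abs_le.1 (hp i)
    have h8 : |((a ^ e + (b + 1) * a : ℕ) : ℝ) - y| ≤ r := abs_le.2 ⟨by linarith [h6.1], by linarith [h7.2]⟩
    exact absurd h3 (not_lt.2 h8)
  · exact hpG i (Or.inr ⟨a, b, ha, by omega, Or.inr ⟨lt_of_lt_of_le h1 (hi₀ i), h⟩⟩)

end Pool.Agent.V1178.PW
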